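import Pool.Agent.R191.EyeExp

/-!
# A real analytic diffeomorphism of the two-torus for which the entropy-exponent inequality is strict for
every invariant measure

The map is `(x, y) ↦ (x + sin (2πx) cos (2πy) / 8π, y - cos (2πx) sin (2πy) / 8π)`, a perturbation of the
identity. With `H = sin (2πx) sin (2πy)`, the function `|H|` strictly decreases along all orbits, except
on `H = 0`, which is an attracting network of heteroclinic connections between four saddle fixed points, and at four
fixed points where `|H| = 1`, which are sources. So every invariant probability measure is a convex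
combination of the Dirac masses at eight fixed points, each of which has an expanding direction.

The definitions `Torus` (`ℝ²/ℤ²`), `Plane` (its universal cover `ℝ²`, which is also its tangent space at
every point, with the maximum norm), `proj` (the covering map) and `IsInvariant` (invariant Borel
probability measure) are in `Pool/Agent/TH292/MR/Defs.lean`; `ksEntropy` (the Kolmogorov-Sinai entropy) is
in `Pool/Agent/Helper179/KSDefs.lean`.
-/

set_option autoImplicit false

open Set Filter Topology MeasureTheory Function
open scoped ContDiff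
open Pool.Agent.TH292.MR (Torus Plane proj IsInvariant)
open Pool.Agent.Helper179.KS (ksEntropy)

namespace Pool.Agent.Results.MP_794bd6_an.NoEqualityMeasure

/-- `f` is a real analytic diffeomorphism of the torus: `F` and `G` are real analytic lifts of `f` and
`f⁻¹`. The derivative of `fⁿ` at `proj z` is that of `Fⁿ` at `z`. -/
structure IsAnalyticDiffeo (f : Torus ≃ₜ Torus) (F G : Plane → Plane) : Prop where
  lift : ∀ z, f (proj z) = proj (F z)
  lift_symm : ∀ z, f.symm (proj z) = proj (G z)
  smooth : ContDiff ℝ ω F
  smooth_symm : ContDiff ℝ ω G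

/-- The norm `‖Λ A‖` of the map induced by `A` on the exterior algebra
`Λ ℝ² = ℝ ⊕ ℝ² ⊕ Λ² ℝ²`: on the three summands it is the identity, `A` and the multiplication by
`det A`. -/
noncomputable def exteriorNorm (A : Plane →L[ℝ] Plane) : ℝ := max 1 (max ‖A‖ |A.det|)

/-- `χ` is the function `χ₊`, the sum of the positive Lyapunov exponents: at `ρ`-almost every point `w`
one has `χ w = lim (1/n) log ‖Λ D_w fⁿ‖`. -/
def IsChiPlus (F : Plane → Plane) (χ : Torus → ℝ) (ρ : Measure Torus) : Prop :=
  ∀ᵐ w ∂ρ, ∀ z, proj z = w →
    Tendsto (fun n : ℕ => (1 / (n : ℝ)) * Real.log (exteriorNorm (fderiv ℝ (F^[n]) z))) atTop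
      (𝓝 (χ w))

/-- There is a real analytic diffeomorphism `f` of the two-torus such that every `f`-invariant Borel
probability measure `ρ` satisfies `h(ρ) = 0` and `∫ χ₊ dρ ≥ log (17/16) > 0`, and so the strict
inequality `h(ρ) < ∫ χ₊ dρ`. -/
theorem result : ∃ (f : Torus ≃ₜ Torus) (F G : Plane → Plane), IsAnalyticDiffeo f F G ∧
    (∀ x y : ℝ, F (x, y) =
      (x + Real.sin (2 * Real.pi * x) * Real.cos (2 * Real.pi * y) / (8 * Real.pi),
        y - Real.cos (2 * Real.pi * x) * Real.sin (2 * Real.pi * y) / (8 * Real.pi))) ∧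
    ∃ χ : Torus → ℝ, ∀ ρ : Measure Torus, IsInvariant f ρ →
      Integrable χ ρ ∧ IsChiPlus F χ ρ ∧ ksEntropy ρ f = 0 ∧
      Real.log (17 / 16) ≤ ∫ w, χ w ∂ρ ∧ ksEntropy ρ f < ((∫ w, χ w ∂ρ : ℝ) : EReal) := by
  refine ⟨R191.Eye.ff, R191.Eye.FF, R191.Eye.GG,
    ⟨R191.Eye.pert.th_proj, R191.Eye.pert.th_symm_proj,
      R191.Eye.pert.contDiff R191.Eye.pp_analytic,
      R191.Eye.pert.contDiff_symm R191.Eye.pp_analytic⟩, ?_, R191.Eye.chi, fun ρ hρ => ?_⟩
  · intro x y
    show ((x, y) : Plane) + R191.Eye.pp (x, y) = _
    ext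
    · rfl
    · show y + -_ = y - _
      rw [sub_eq_add_neg]
      rfl
  · have hp := hρ.prob
    have hfix := R191.Eye.ae_fix hρ
    have hlog : 0 < Real.log (17 / 16) := Real.log_pos (by norm_num)
    have hint : Integrable R191.Eye.chi ρ := by
      refine Integrable.of_bound R191.Eye.chi_meas.aestronglyMeasurable (Real.log (5 / 4))
        (ae_of_all _ fun w => ?_)
      rw [Real.norm_eq_abs, abs_of_nonneg (hlog.le.trans (R191.Eye.le_chi w))]
      exact R191.Eye.chi_le w
    have hks : ksEntropy ρ R191.Eye.ff = 0 := by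
      refine le_antisymm ?_ (Helper179.KS.ksEntropy_nonneg ρ _)
      refine R191.Eye.ks_le_zero ρ ?_
      filter_upwards [hfix] with w hw
      exact R191.Eye.ff_fix hw
    have hle : Real.log (17 / 16) ≤ ∫ w, R191.Eye.chi w ∂ρ := by
      have := integral_mono (integrable_const (Real.log (17 / 16))) hint R191.Eye.le_chi
      simpa using this
    refine ⟨hint, ?_, hks, hle, ?_⟩
    · filter_upwards [hfix] with w hw z hz
      exact R191.Eye.chi_lim hw z hz
    · rw [hks]
      exact_mod_cast hlog.trans_le hle

end Pool.Agent.Results.MP_794bd6_an.NoEqualityMeasure
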